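import Pool.Agent.H.MP_28bf97_an.D

open Topology

namespace Pool.Agent.Results.MP_145b75_an.Delta

theorem result : ∃ (X : Type) (_ : NormedAddCommGroup X) (_ : NormedSpace ℂ X)
    (_ : CompleteSpace X) (T : X →L[ℂ] X),
    Dense {x : X | ∀ U ∈ 𝓝 x, ∃ g : ℕ, ∀ s : ℕ, ∃ n : ℕ, s ≤ n ∧ n ≤ s + g ∧ (T ^ n) x ∈ U} ∧
    ¬ Dense {x : X | ∀ U ∈ 𝓝 x, ∀ B : Set ℕ, B.Infinite →
      ∃ a ∈ B, ∃ b ∈ B, a < b ∧ (T ^ (b - a)) x ∈ U} := by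
  obtain ⟨X, _, _, _, T, -, -, _, h1, -, h2⟩ := Pool.Agent.H.MP_28bf97_an.main
  refine ⟨X, _, _, ‹_›, T, h1.mono fun x hx U hU => (hx U hU).imp fun g hg s =>
    (hg s).imp fun n hn => ⟨hn.1.le, hn.2⟩, fun h => ?_⟩
  obtain ⟨x, hx⟩ := exists_ne (0 : X)
  exact hx (by simpa using h.mono (s₂ := {0}) h2 x)

end Pool.Agent.Results.MP_145b75_an.Delta
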